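import Pool.Agent.Run7.h390.BD.Act
import Pool.Agent.Run7.h390.BD.Alg3

/-!
# Groups acting on buildings of rank two over arbitrary discretely valued division rings

`C` is any class of groups with the closure properties `ClosedE C` (it contains `ℤ`, is closed under
subgroups, finite products, free products, overgroups of finite index and directed colimits, and satisfies
the extension criterion) which contains the groups acting properly and cocompactly on simply connected
two-dimensional piecewise Euclidean complexes of nonpositive curvature (`CatC C`). All this is known for the
class of the groups whose wreath products with finite groups satisfy the K- and L-theoretic Farrell-Jones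
conjecture with coefficients, and for its A-theoretic version (Bartels, Lück, Reich, Wegner, Enkelmann,
Pieper, Ullmann, Winges). So the assertions of the Farrell-Jones conjecture hold for the groups below and
for all their subgroups.

* (1) Let `Λ` be a lattice (an ordered set with joins and meets) with an order automorphism `t` such that
  `t L < L`, such that there is no chain `t L < M₁ < M₂ < M₃ < L`, and such that for all `L`, `M` some
  `t ^ n M` is below `L` (`Bl t`). These are the uniform lattices of height at most three, which are the
  same as the Euclidean buildings of type `Ã₂`, exotic ones included, if they are modular (Hirai); the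
  lattices of Garside type of height three are examples which are not modular. Let `G` act on `Λ` by order
  automorphisms which commute with `t`, such that an element which fixes the class of `L` modulo `t` has a
  power which fixes the class of `M`, if `t L < M < L`, and such that for every `L` there is a
  homomorphism from `G` to a group in `C` whose kernel meets the stabilizer of the class of `L` in a finite
  set. Then `G` is in `C`. There are no finiteness conditions on `G`, `Λ` and the number of orbits.
* (2) A degree function on a ring `R` is a function `deg : R → ℤ ∪ {-∞}` with `deg x = -∞` only for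
  `x = 0`, `deg (x y) = deg x + deg y` and `deg (x + y) ≤ max (deg x) (deg y)` (minus a discrete
  valuation). Let `D` be a division ring with a degree function and let `G` be a group with a homomorphism
  `θ` to `GL_3(D)` such that for every finite subset `E` of `G` and every `n` only finitely many elements of
  the subgroup generated by `E` have matrices with entries of degrees at most `n`. Then `G` is in `C`.
* (3) The unit group of a ring `L` is in `C` if `L` has a homomorphism to `M_3(D)` such that in every
  finitely generated subring only finitely many elements have entries of degrees at most `n`, for every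
  `n`. This covers the orders in central simple algebras of degree three over global fields with one
  place at infinity, and over fields of higher transcendence degree.
* (4) Let `R` be a left Ore domain (with division ring of left fractions `D`) with a degree function such
  that every finitely generated subring has only finitely many elements of degree at most `n`, for every
  `n`. Then `GL_3(R)` is in `C`.
* (5) The same for commutative rings `A` with a degree function: `GL_3(A)` is in `C`.
* (6) In particular `GL_3(A)` is in `C` if `A` is a finitely generated algebra over an algebraic
  extension `K` of a finite field, with a degree function such that the elements of degree at most `n` are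
  contained in a finite-dimensional subspace, for every `n` (coordinate rings of affine varieties with one
  divisor at infinity).
* (7) `GL_3(K[x_σ])` is in `C` for every set `σ` of variables.

For transcendence degree one (and `GL_n` for all `n`) such results are due to Rüping (S-arithmetic
groups). For higher transcendence degree and rank two nothing seems to be known: the building is not
locally finite, and `GL_3(F_q[x_1, …, x_n])` acts with infinitely many orbits and finite stabilizers of
unbounded order. `GL_2` is contained in the results of helper909 on groups acting on trees.

Outline of the proof. (1) The classes of `Λ` modulo `t` are the vertices, the pairs `t L < M < L` the edges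
and the triangles of this graph the faces of a complex of dimension two; the lattice property and the
condition on chains imply that the links have girth at least six, and the maps `L ↦ L ∨ t ^ k L₀` contract
it. So the theorem of helper909 on groups acting on such complexes (`TwoDimensionalComplexes`) applies.
(2) `Λ` is the set of the submodules of `D ^ 3` over the ring of the elements of degree at most `0` which are
bounded and open, and `t` is the multiplication by an element of largest negative degree. If an element fixes
the class of a lattice, the degrees of the entries of its powers are bounded, since the degree of the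
powers is bounded below by the finiteness condition; so some power is trivial. (4) The degree function
extends to the division ring of fractions. (6) A finitely generated subring meets a finite-dimensional
subspace in a finite set, by descent of the ideal of relations to a finite field.
-/

set_option autoImplicit false

namespace Pool.Agent.Results.MP_59dd5b_al.RankTwoBuildings

open _root_.Run7.h909.GT _root_.Run7.h909.TD _root_.Run7.h909.NC
open Pool.Agent.Y110.FJ (ClosedE)
open Pool.Agent.Run7.h390.BD

/-- (1) lattices with an order automorphism of length at most three -/
def Lattices (C : ∀ (G : Type) [Group G], Prop) : Prop :=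
  ∀ (G Λ : Type) [Group G] [Lattice Λ] [Nonempty Λ] [MulAction G Λ] (t : Λ ≃o Λ), Bl t →
    (∀ (g : G) (L M : Λ), L ≤ M → g • L ≤ g • M) → (∀ (g : G) (L : Λ), g • t L = t (g • L)) →
    (∀ (g : G) (L M : Λ) (a : ℤ), g • L = (t ^ a : Λ ≃o Λ) L → t L < M → M < L →
      ∃ n : ℕ, 0 < n ∧ ∃ b : ℤ, g ^ n • M = (t ^ b : Λ ≃o Λ) M) →
    (∀ L : Λ, ∃ (P : Type) (_ : Group P) (f : G →* P), C P ∧
      {g : G | (∃ a : ℤ, g • L = (t ^ a : Λ ≃o Λ) L) ∧ f g = 1}.Finite) → C G

/-- (2) groups with matrices of degree three over a division ring with a degree function -/
def Matrices (C : ∀ (G : Type) [Group G], Prop) : Prop :=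
  ∀ (G D : Type) [Group G] [DivisionRing D] (deg : D → WithBot ℤ), IsDegN deg →
    ∀ θ : G →* (Matrix (Fin 3) (Fin 3) D)ˣ,
    (∀ (E : Set G) (n : ℕ), E.Finite → {g : G | g ∈ Subgroup.closure E ∧
      ∀ i j, deg ((θ g : Matrix (Fin 3) (Fin 3) D) i j) ≤ n}.Finite) → C G

/-- (3) unit groups of rings with a representation of degree three -/
def Units (C : ∀ (G : Type) [Group G], Prop) : Prop :=
  ∀ (L D : Type) [Ring L] [DivisionRing D] (deg : D → WithBot ℤ), IsDegN deg →
    ∀ ψ : L →+* Matrix (Fin 3) (Fin 3) D,
    (∀ (E : Set L) (n : ℕ), E.Finite → {a : L | a ∈ Subring.closure E ∧
      ∀ i j, deg (ψ a i j) ≤ n}.Finite) → C Lˣ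

/-- (4) left Ore domains -/
def Ore (C : ∀ (G : Type) [Group G], Prop) : Prop :=
  ∀ (R D : Type) [Ring R] [DivisionRing D] (deg : R → WithBot ℤ), IsDegN deg →
    ∀ j : R →+* D, LFrac j →
    (∀ (E : Set R) (n : ℕ), E.Finite → {a : R | a ∈ Subring.closure E ∧ deg a ≤ n}.Finite) →
    C (Matrix (Fin 3) (Fin 3) R)ˣ

/-- (5) commutative rings with a degree function -/
def Rings (C : ∀ (G : Type) [Group G], Prop) : Prop :=
  ∀ (A : Type) [CommRing A] [Nontrivial A] (deg : A → WithBot ℤ), IsDeg deg →
    (∀ (E : Set A) (n : ℕ), E.Finite → {a : A | a ∈ Subring.closure E ∧ deg a ≤ n}.Finite) →
    C (GL (Fin 3) A)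

/-- (6) affine algebras in positive characteristic -/
def Affine (C : ∀ (G : Type) [Group G], Prop) : Prop :=
  ∀ (K A : Type) [Field K] (p : ℕ) [Fact p.Prime] [Algebra (ZMod p) K]
    [Algebra.IsAlgebraic (ZMod p) K] [CommRing A] [Nontrivial A] [Algebra K A]
    [Algebra.FiniteType K A] (deg : A → WithBot ℤ), IsDeg deg →
    (∀ n : ℕ, ∃ V : Submodule K A, Module.Finite K V ∧ ∀ a, deg a ≤ n → a ∈ V) → C (GL (Fin 3) A)

/-- (7) polynomial rings -/
def Polynomials (C : ∀ (G : Type) [Group G], Prop) : Prop :=
  ∀ (K σ : Type) [Field K] (p : ℕ) [Fact p.Prime] [Algebra (ZMod p) K]
    [Algebra.IsAlgebraic (ZMod p) K], C (GL (Fin 3) (MvPolynomial σ K))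

/-- **The Farrell-Jones class contains the groups acting on uniform lattices of height three with small
stabilizers, and in particular `GL_3` of rings with a degree function.** -/
theorem result (C : ∀ (G : Type) [Group G], Prop) (hC : ClosedE C) (hcat : CatC C) :
    Lattices C ∧ Matrices C ∧ Units C ∧ Ore C ∧ Rings C ∧ Affine C ∧ Polynomials C := by
  refine ⟨?_, ?_, ?_, ?_, ?_, ?_, ?_⟩
  · intro G Λ _ _ _ _ t h hm hcm hT hP
    exact bl_mem hC hcat h hm hcm (fun g L M a e1 e2 => hT g L M a e1 e2.1 e2.2) hP
  · intro G D _ _ deg h θ hfin
    exact fg_mem hC hcat h θ hfin
  · intro L D _ _ deg h ψ hfin
    exact ring_mem hC hcat h ψ hfin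
  · intro R D _ _ deg h j hj hfin
    exact ore_mem hC hcat h hj hfin
  · intro A _ _ deg h hfin
    exact comm_mem hC hcat h hfin
  · intro K A _ p _ _ _ _ _ _ _ deg h hfd
    exact alg3_mem p hC hcat h hfd
  · intro K σ _ p _ _ _
    exact pol3_mem p hC hcat σ

end Pool.Agent.Results.MP_59dd5b_al.RankTwoBuildings
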