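import Pool.Agent.Run7.h909.UG.Stm

/-!
# Orthogonal and unitary groups of Witt index one over polynomial rings, in A-theory

`C` is any class of groups with the closure properties `ClosedE C` which contains the solvable groups.
All this is known for the class of the groups whose wreath products with finite groups satisfy the
fibered isomorphism conjecture in A-theory, that is, the Farrell-Jones conjecture for `A`-theory with
coefficients (Enkelmann, Lück, Pieper, Ullmann and Winges for the closure properties; Kasprowski,
Ullmann, Wegner and Winges, The A-theoretic Farrell-Jones conjecture for virtually solvable groups,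
Bull. London Math. Soc. 50 (2018), for the solvable groups and for the S-arithmetic groups). So the
assertion of Q1 holds for all countable groups in this class, and by the theorem for all countable
subgroups of the groups below. For instance the integral orthogonal groups of the signatures `(n, 1)`
and the unitary groups of these signatures over the rings of integers of imaginary quadratic fields are
arithmetic, so that part (1) applies to them.

This theorem of helper909 was first handed in for `MP_98022b_gt.UnitaryPolynomial`, where the question is
about `L`-theory and Whitehead groups of torsion-free groups.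

Let `A` be a commutative ring with an involution `τ` (the identity is allowed) and `H` a hermitian
matrix over `A`, with rows and columns indexed by a finite set `ι`. `Uh τ H` is the isometry group of
the orthogonal sum of the hyperbolic plane and the form with the Gram matrix `H`: the group of all
`g ∈ GL (Fin 2 ⊕ ι) A` which preserve
`hb τ H v w = τ v₀ w₁ + τ v₁ w₀ + ∑ i j, τ v_i H i j w_j`.
If `τ = 1` this is the orthogonal group of the quadratic form `2 v₀ v₁ + ∑ i j, H i j v_i v_j`.
`Base τ H` says that `τ` is an involution, `H` is hermitian and anisotropic (`h0 τ H z z = 0` only for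
`z = 0`) and `2 ≠ 0`. The polynomial rings have the involution which is `τ` on the coefficients and
fixes the variables (`Polynomial.mapRingHom τ`, `MvPolynomial.map τ`), and `HX H`, `HM (Fin n) H` are
the constant matrices with the entries of `H`.

* (1) Let `B` be an integral domain with `Base τ H`. If the isometry group over `B` is in `C`, then so
  are the isometry groups over `B[x]` and over `B[x_1, ..., x_n]`, for all `n`.
* (2) If `K` is a field of odd characteristic which is algebraic over its prime field and `Base τ H`
  holds over `K`, then the isometry groups over `K[x_1, ..., x_n]` are in `C`, for all `n`.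
* (3) Let `A` be a ring with an involution and a nonnegative degree function which is invariant under
  the involution and satisfies the Cauchy-Schwarz inequality
  `2 deg (h0 z w) ≤ deg (h0 z z) + deg (h0 w w)`, such that the entries of the vectors `z` with
  `deg (h0 z z)` bounded are of bounded degree, and let `J` be an ideal such that for every `n` some
  power of `J` has no nonzero elements of degree at most `n`. If the image of the isometry group in
  the general linear group over `A / J` is in `C`, then the isometry group over `A` is in `C`.
* (4) Let `A` be a ring with an involution and a degree function as in (3) (negative degrees and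
  elements of unbounded degree being allowed) and `ρ` a homomorphism from a group `G` to the isometry
  group over `A`. Suppose that for every `n` there is a homomorphism from `G` to a group in `C` which
  does not kill any `g ≠ 1` such that the `hb τ H (a_p) (ρ(g) a_q)` are of degree at most `n` for all
  the vectors `a_p`, `a_q` in the list `av H` of isotropic vectors. Then `G` is in `C`.

`UMem C τ H` says that `Uh τ H` is in `C`, `UGrp τ H` is the group `Uh τ H` as a type, and
`RMem C τ H J` says that the image of `Uh τ H` modulo the ideal `J` is in `C`.

Outline of the proof. For isotropic vectors the degree of the scalar product satisfies the inequality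
of Ptolemy, `deg (a, b) + deg (c, e) ≤ max (deg (a, c) + deg (b, e)) (deg (a, e) + deg (b, c))`
(`Dat.ptol`): on the isotropic vectors which do not lie on the line at infinity it is, up to a
normalization, an ultrametric, by the identity
`|y_b|² (a, c) = τ y_b y_c (a, b) + τ y_a y_b (b, c) + h0 (y_b a' - y_a b') (y_b c' - y_c b')` and the
inequality of Cauchy and Schwarz for the anisotropic part. So the largest degree of `(g a_p, k a_q)`
satisfies the four point condition, and this gives an action of the isometry group on a tree. The
stabilizers of the vertices consist of elements of bounded degree, which are detected by the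
reductions modulo the powers of `J`, and the theorem on trees with one homomorphism for each vertex
can be applied (`N24.TR.tree_local`). Over a polynomial ring the leading coefficients show that
`deg (h0 z z)` is twice the largest degree of the entries of `z`.
-/

set_option autoImplicit false

namespace Pool.Agent.Results.MP_59dd5b_al.UnitaryPolynomial

open Pool.Agent.Y110.FJ (ClosedE)
open Run7.h909.GT
open Run7.h909.UG

open Matrix

/-- (1) polynomial rings over integral domains -/
def Poly (C : ∀ (G : Type) [Group G], Prop) : Prop :=
  ∀ (B ι : Type) [CommRing B] [IsDomain B] [Fintype ι] [DecidableEq ι] (τ : B →+* B)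
    (H : Matrix ι ι B), Base τ H → UMem C τ H →
    UMem C (Polynomial.mapRingHom τ) (HX H) ∧
    ∀ n : ℕ, UMem C (MvPolynomial.map (σ := Fin n) τ) (HM (Fin n) H)

/-- (2) polynomial rings over algebraic extensions of finite fields -/
def PolyFin (C : ∀ (G : Type) [Group G], Prop) : Prop :=
  ∀ (K ι : Type) [Field K] [Fintype ι] [DecidableEq ι] (p : ℕ) [Fact p.Prime]
    [Algebra (ZMod p) K] [Algebra.IsAlgebraic (ZMod p) K] (τ : K →+* K) (H : Matrix ι ι K),
    Base τ H → ∀ n : ℕ, UMem C (MvPolynomial.map (σ := Fin n) τ) (HM (Fin n) H)

/-- (3) rings with a degree function -/
def Degree (C : ∀ (G : Type) [Group G], Prop) : Prop :=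
  ∀ (A ι : Type) [CommRing A] [Nontrivial A] [Fintype ι] [DecidableEq ι] (τ : A →+* A)
    (H : Matrix ι ι A) (deg : A → WithBot ℤ), Dat deg τ H → (∀ x, x ≠ 0 → 0 ≤ deg x) →
    (2 : A) ≠ 0 →
    (∀ n : ℕ, ∃ m : ℕ, ∀ z : ι → A, deg (h0 τ H z z) ≤ n → ∀ i, deg (z i) ≤ m) →
    ∀ J : Ideal A, RMem C τ H J →
    (∀ n : ℕ, ∃ k : ℕ, ∀ x ∈ J ^ k, deg x ≤ n → x = 0) → UMem C τ H

/-- (4) groups which map to an isometry group -/
def Criterion (C : ∀ (G : Type) [Group G], Prop) : Prop :=
  ∀ (A ι G : Type) [CommRing A] [Nontrivial A] [Fintype ι] [DecidableEq ι] [Group G]
    (τ : A →+* A) (H : Matrix ι ι A) (deg : A → WithBot ℤ), Dat deg τ H →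
    ∀ ρ : G →* UGrp τ H,
    (∀ n : ℕ, ∃ (P : Type) (_ : Group P) (f : G →* P), C P ∧ ∀ g : G,
      (∀ p q, deg (pair (ρ g) p q) ≤ n) → f g = 1 → g = 1) → C G

theorem result (C : ∀ (G : Type) [Group G], Prop) (hC : ClosedE C)
    (hsol : ∀ (G : Type) [Group G], Group.IsSolvable G → C G) :
    Poly C ∧ PolyFin C ∧ Degree C ∧ Criterion C := by
  refine ⟨?_, ?_, ?_, ?_⟩
  · intro B ι _ _ _ _ τ H hB h
    exact ⟨upoly_mem hC hsol hB h, fun n => (umv_mem hC hsol hB h n).2⟩
  · intro K ι _ _ _ p _ _ _ τ H hB n
    refine (umv_mem hC hsol hB ?_ n).2
    exact hC.base.of_injective _ _ (Uh τ H).subtype Subtype.val_injective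
      (glK_mem hC (Fin 2 ⊕ ι) K p)
  · intro A ι _ _ _ _ τ H deg h hnn h2 hbd J hJ hn
    exact unitary_mem hC hsol h hnn h2 hbd J hJ hn
  · intro A ι G _ _ _ _ _ τ H deg h ρ hP
    exact rep0 h hC ρ hP

end Pool.Agent.Results.MP_59dd5b_al.UnitaryPolynomial
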